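import Pool.Agent.Q228.HL.Main

/-!
# Half-line search with a faulty searcher: the bound `4 - p` fails for `p = 1/2`

There is a trajectory whose competitive ratio for `p = 1/2` is at most `277/80 = 3.4625`, which is
less than `4 - p = 3.5`.
-/

set_option autoImplicit false

noncomputable section

namespace Pool.Agent.Results.MP_1aa7fe_lc.BelowFourMinusP

open Pool.Agent.Q228.HL

/-- For `p = 1/2` some feasible trajectory has competitive ratio at most `277/80`. Hence the bound
`4 - p ≤ ratio p t` does not hold for all `p` and all (feasible) trajectories. -/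
theorem result :
    (∃ t : ℕ → ℝ, IsTrajectory t ∧ Feasible (1 / 2) t ∧
      (∀ d : ℝ, 1 ≤ d → 1 / 2 * expTime (1 / 2) t d / d ≤ 277 / 80) ∧
      ratio (1 / 2) t ≤ 277 / 80) ∧
    ¬ ∀ p : ℝ, 0 < p → p < 1 → ∀ t : ℕ → ℝ, IsTrajectory t → Feasible p t → 4 - p ≤ ratio p t := by
  have h1 : ∀ d : ℝ, 1 ≤ d → 1 / 2 * expTime (1 / 2) tr d / d ≤ 277 / 80 := by
    intro d hd
    have h := expTime_le hd
    rw [div_le_iff₀ (by linarith)]
    linarith
  have h2 : ratio (1 / 2) tr ≤ 277 / 80 := by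
    unfold ratio
    refine csSup_le ⟨_, 1, Set.mem_Ici.2 le_rfl, rfl⟩ ?_
    rintro _ ⟨d, hd, rfl⟩
    exact h1 d hd
  refine ⟨⟨tr, isTrajectory_tr, feasible_tr, h1, h2⟩, fun h => ?_⟩
  have h3 := h (1 / 2) (by norm_num) (by norm_num) tr isTrajectory_tr feasible_tr
  norm_num at h3
  norm_num at h2
  linarith

end Pool.Agent.Results.MP_1aa7fe_lc.BelowFourMinusP
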